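import Mathlib

/-! # Two coprime elements in a prime ideal of a factorial ring: dimension of the quotient -/

set_option autoImplicit false

namespace Pool.Agent.Helper70.OLB

theorem exists_prime_dvd {R : Type} [CommRing R] [IsDomain R] [UniqueFactorizationMonoid R]
    (q : Ideal R) [hq : q.IsPrime] {b : R} (hb : b ∈ q) (hb0 : b ≠ 0) :
    ∃ p, Prime p ∧ p ∣ b ∧ p ∈ q := by
  have h1 := UniqueFactorizationMonoid.factors_prod hb0
  have h2 : (UniqueFactorizationMonoid.factors b).prod ∈ q := by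
    obtain ⟨c, hc⟩ := h1.symm.dvd
    have := h1.symm.dvd
    exact q.mem_of_dvd this hb
  obtain ⟨p, hp, hpq⟩ := (hq.multiset_prod_mem_iff_exists_mem _).1 h2
  exact ⟨p, UniqueFactorizationMonoid.prime_of_factor p hp,
    UniqueFactorizationMonoid.dvd_of_mem_factors hp, hpq⟩

/-- If the prime ideal `q` of the factorial ring `R` contains two coprime elements then the dimension of
`R ⧸ q` is at most the dimension of `R` minus two. -/
theorem dim_quot {R : Type} [CommRing R] [IsDomain R] [UniqueFactorizationMonoid R]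
    (q : Ideal R) [hq : q.IsPrime] {a b : R} (ha : a ∈ q) (hb : b ∈ q) (hb0 : b ≠ 0)
    (hcop : ∀ p, Prime p → p ∣ a → ¬ p ∣ b) : ringKrullDim (R ⧸ q) + 2 ≤ ringKrullDim R := by
  obtain ⟨p, hp, hpb, hpq⟩ := exists_prime_dvd q hb hb0
  have hpa : ¬ p ∣ a := fun h => hcop p hp h hpb
  have hP : (Ideal.span {p}).IsPrime := (Ideal.span_singleton_prime hp.ne_zero).2 hp
  have hle : Ideal.span {p} ≤ q := (Ideal.span_singleton_le_iff_mem q).2 hpq
  set a1 : R ⧸ Ideal.span {p} := Ideal.Quotient.mk _ a with ha1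
  have ha10 : a1 ≠ 0 := by
    rw [ha1, Ne, Ideal.Quotient.eq_zero_iff_mem, Ideal.mem_span_singleton]
    exact hpa
  have h1 : ringKrullDim (R ⧸ Ideal.span {p}) + 1 ≤ ringKrullDim R :=
    ringKrullDim_quotient_succ_le_of_nonZeroDivisor (mem_nonZeroDivisors_of_ne_zero hp.ne_zero)
  have h2 : ringKrullDim ((R ⧸ Ideal.span {p}) ⧸ Ideal.span {a1}) + 1 ≤
      ringKrullDim (R ⧸ Ideal.span {p}) :=
    ringKrullDim_quotient_succ_le_of_nonZeroDivisor (mem_nonZeroDivisors_of_ne_zero ha10)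
  let φ : R ⧸ Ideal.span {p} →+* R ⧸ q := Ideal.Quotient.factor hle
  have hφ : ∀ z ∈ Ideal.span {a1}, φ z = 0 := by
    intro z hz
    obtain ⟨c, rfl⟩ := Ideal.mem_span_singleton.1 hz
    rw [map_mul, show φ a1 = Ideal.Quotient.mk q a from rfl, Ideal.Quotient.eq_zero_iff_mem.2 ha,
      zero_mul]
  let ψ : (R ⧸ Ideal.span {p}) ⧸ Ideal.span {a1} →+* R ⧸ q := Ideal.Quotient.lift _ φ hφ
  have hψ : Function.Surjective ψ := by
    intro z
    obtain ⟨r, rfl⟩ := Ideal.Quotient.mk_surjective z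
    exact ⟨Ideal.Quotient.mk _ (Ideal.Quotient.mk _ r), rfl⟩
  have h3 : ringKrullDim (R ⧸ q) ≤ ringKrullDim ((R ⧸ Ideal.span {p}) ⧸ Ideal.span {a1}) :=
    ringKrullDim_le_of_surjective ψ hψ
  calc ringKrullDim (R ⧸ q) + 2 = ringKrullDim (R ⧸ q) + 1 + 1 := by
        rw [add_assoc]; norm_num
    _ ≤ ringKrullDim ((R ⧸ Ideal.span {p}) ⧸ Ideal.span {a1}) + 1 + 1 := by gcongr
    _ ≤ ringKrullDim (R ⧸ Ideal.span {p}) + 1 := by gcongr
    _ ≤ ringKrullDim R := h1

end Pool.Agent.Helper70.OLB
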